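import Mathlib
import Pool.Agent.Mg.F1231ed.Gfd51da

/-- Two complete separable metric spaces that are not isometric although their squares, with the
Euclidean product metric, are isometric. -/
theorem Pool.Agent.Results.MP_1231ed_gt.CompleteCounterexample.result :
    ∃ (A B : Type) (_ : MetricSpace A) (_ : MetricSpace B),
      CompleteSpace A ∧ CompleteSpace B ∧
      TopologicalSpace.SeparableSpace A ∧ TopologicalSpace.SeparableSpace B ∧
      (∃ φ : A × A ≃ B × B, ∀ p q : A × A,
        Real.sqrt (dist (φ p).1 (φ q).1 ^ 2 + dist (φ p).2 (φ q).2 ^ 2)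
          = Real.sqrt (dist p.1 q.1 ^ 2 + dist p.2 q.2 ^ 2)) ∧
      IsEmpty (A ≃ᵢ B) :=
  Pool.Agent.MP_1231ed_gt.main
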