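import Mathlib
import Pool.Agent.MP_1231ed_gt.R.Big

open Pool.Agent.MP_1231ed_gt.R in
/-- Complete metric spaces with isometric Euclidean squares agree up to divisible factors. -/
theorem Pool.Agent.Results.MP_1231ed_gt.DivisibleFactor.result
    (A B : Type) [MetricSpace A] [MetricSpace B] [CompleteSpace A] (φ : A × A ≃ B × B)
    (hφ : ∀ p q : A × A,
      Real.sqrt (dist (φ p).1 (φ q).1 ^ 2 + dist (φ p).2 (φ q).2 ^ 2)
        = Real.sqrt (dist p.1 q.1 ^ 2 + dist p.2 q.2 ^ 2)) :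
    ∃ (Y Y' Z W : Type) (_ : MetricSpace Y) (_ : MetricSpace Y') (_ : MetricSpace Z)
      (_ : MetricSpace W), IsProd A Y Z ∧ IsProd B Y' Z ∧ IsProd W Y Y ∧ IsProd W Y' Y' ∧
      Nonempty Y ∧
      (∀ (Y₁ Y₂ : Type) [MetricSpace Y₁] [MetricSpace Y₂], IsProd Y Y₁ Y₂ →
        ∀ (p q : Y₁) (t : ℝ), 0 ≤ t → t ≤ 1 →
        ∃ (W₁ W₂ : Type) (_ : MetricSpace W₁) (_ : MetricSpace W₂) (e : Y₁ ≃ W₁ × W₂),
          (∀ u v : Y₁, dist u v ^ 2 = dist (e u).1 (e v).1 ^ 2 + dist (e u).2 (e v).2 ^ 2) ∧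
          dist (e p).1 (e q).1 ^ 2 = t * dist p q ^ 2) ∧
      (Nontrivial Y → ∀ (y : Y) (r : ℝ), 0 < r → ¬ TotallyBounded (Metric.ball y r)) := by
  obtain ⟨Y, Y', Z, W, a, b, c, d, h1, h2, h3, h4, h5, h6, -, h7⟩ := all A B φ hφ
  exact ⟨Y, Y', Z, W, a, b, c, d, h1, h2, h3, h4, h6, h5, fun h y => sPack Y y (h7 h y)⟩
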