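import Mathlib
import Pool.Agent.MP_1231ed_gt.S.Big

open Pool.Agent.MP_1231ed_gt.S in
/-- Complete metric spaces with isometric Euclidean squares are Euclidean products of the same
countable family of factors, with different base points. -/
theorem Pool.Agent.Results.MP_1231ed_gt.SameFactors.result
    (A B : Type) [MetricSpace A] [MetricSpace B] [CompleteSpace A] [Nonempty A]
    (φ : A × A ≃ B × B)
    (hφ : ∀ p q : A × A,
      Real.sqrt (dist (φ p).1 (φ q).1 ^ 2 + dist (φ p).2 (φ q).2 ^ 2)
        = Real.sqrt (dist p.1 q.1 ^ 2 + dist p.2 q.2 ^ 2)) :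
    ∃ (J : Type) (_ : Countable J) (Y : J → Type) (_ : ∀ j, MetricSpace (Y j)) (a b : ∀ j, Y j),
      IsL2 A Y a ∧ IsL2 B Y b :=
  same sBA sL2 (sHalf sSB sCmp (sFF sCmp) sInfin) A B φ fun p q =>
    (Real.sqrt_inj (by positivity) (by positivity)).1 (hφ p q)
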